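import Pool.Agent.Lib.MP_6e81d8_ag.H56Reg

set_option autoImplicit false

namespace Pool.Agent.Lib.MP_6e81d8_ag.Variants.RegularAll

theorem result :
  ∀ (r d μ : ℕ) (m : Fin r → ℕ), (∀ i, m i ≤ μ) → 3 * μ ≤ d →
    (∑ i : Fin r, m i) * (μ + 1) ^ 2 ≤ μ * (d + 3) ^ 2 →
    ∃ F : MvPolynomial (Fin r × Fin 2) ℂ, F ≠ 0 ∧
      ∀ p : Fin r → Fin 2 → ℂ,
        MvPolynomial.eval (fun ij : Fin r × Fin 2 => p ij.1 ij.2) F ≠ 0 →
        ((Module.finrank ℂ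
            ↥(MvPolynomial.restrictTotalDegree (Fin 2) ℂ d ⊓
              ⨅ i : Fin r,
                ((RingHom.ker (MvPolynomial.eval (p i))) ^ (m i)).restrictScalars ℂ) : ℤ) - 1)
          = max (-1) (((d * (d + 3) / 2 : ℕ) : ℤ)
              - ∑ i : Fin r, ((m i * (m i + 1) / 2 : ℕ) : ℤ)) :=
  fun _ _ _ _ hm hd h => (Pool.Agent.Lib.MP_6e81d8_ag.H56.regular hm hd h).mono fun _ hp => by
    rw [← hp, max_eq_right (by omega)]

end Pool.Agent.Lib.MP_6e81d8_ag.Variants.RegularAll
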